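import Pool.Agent.Helper72.PT.St

/-! PT module Scal -/

open Finset

namespace Pool.Agent.Helper3.PT.Scal

open Pool.HW Pool.PL Pool.PT

/-! ### abstract sequences -/

theorem swap (F : ℕ → ℕ → ℝ) (m M : ℕ) :
    ∑ h ∈ Ioc m M, ∑ t ∈ Ioc m h, F h t = ∑ t ∈ Ioc m M, ∑ h ∈ Icc t M, F h t := by
  apply Finset.sum_comm'
  intro x y
  simp only [mem_Ioc, mem_Icc]
  omega

theorem shift (f : ℕ → ℝ) (t M : ℕ) (h : t ≤ M) :
    ∑ h ∈ Icc t M, f (h - t) = ∑ s ∈ range (M - t + 1), f s := by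
  rw [show Icc t M = (range (M - t + 1)).map (addRightEmbedding t) by
    ext x
    simp only [mem_Icc, mem_map, mem_range, addRightEmbedding_apply]
    constructor
    · rintro ⟨h1, h2⟩
      exact ⟨x - t, by omega, by omega⟩
    · rintro ⟨s, h1, rfl⟩
      omega]
  rw [sum_map]
  exact sum_congr rfl fun s _ => by simp

variable {u : ℕ → ℝ} {κ : ℕ → ℕ → ℝ}

theorem u_le (hu : ∀ h, 0 ≤ u h) (u0 : u 0 = 1) (hκ : ∀ m t, 0 ≤ κ m t)
    (ha : ∀ m T, ∑ t ∈ Ioc m T, κ m t ≤ 1)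
    (hb : ∀ m h, m < h → u h = ∑ t ∈ Ioc m h, κ m t * u (h - t)) (h : ℕ) : u h ≤ 1 := by
  induction h using Nat.strong_induction_on with
  | _ h ih =>
    rcases Nat.eq_zero_or_pos h with h0 | h0
    · rw [h0, u0]
    · rw [hb 0 h h0]
      refine le_trans (sum_le_sum fun t ht => ?_) (ha 0 h)
      have := mem_Ioc.1 ht
      exact mul_le_of_le_one_right (hκ 0 t) (ih (h - t) (by omega))

theorem win (hκ : ∀ m t, 0 ≤ κ m t)
    (f : ℕ → ℝ) (hf : ∀ h, 0 ≤ f h) (m r : ℕ) :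
    ∑ h ∈ Ioc m (m + r), ∑ t ∈ Ioc m h, κ m t * f (h - t) ≤
      (∑ t ∈ Ioc m (m + r), κ m t) * ∑ s ∈ range (r + 1), f s := by
  rw [swap, sum_mul]
  apply sum_le_sum
  intro t ht
  have ht' := mem_Ioc.1 ht
  rw [← mul_sum]
  apply mul_le_mul_of_nonneg_left _ (hκ m t)
  rw [shift f t (m + r) ht'.2]
  exact sum_le_sum_of_subset_of_nonneg (range_subset_range.2 (by omega)) fun i _ _ => hf i

theorem sumsq (hu : ∀ h, 0 ≤ u h) (hκ : ∀ m t, 0 ≤ κ m t)
    (ha : ∀ m T, ∑ t ∈ Ioc m T, κ m t ≤ 1)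
    (hb : ∀ m h, m < h → u h = ∑ t ∈ Ioc m h, κ m t * u (h - t)) (m r : ℕ) :
    ∑ h ∈ Ioc m (m + r), u h ^ 2 ≤
      (∑ t ∈ Ioc m (m + r), κ m t) * ∑ s ∈ range (r + 1), u s ^ 2 := by
  refine le_trans (sum_le_sum fun h hh => ?_) (win hκ (fun h => u h ^ 2) (fun h => sq_nonneg _) m r)
  have hh' := mem_Ioc.1 hh
  rw [hb m h hh'.1]
  refine le_trans (Finset.sum_sq_le_sum_mul_sum_of_sq_eq_mul _ (f := fun t => κ m t)
    (g := fun t => κ m t * u (h - t) ^ 2) (fun t _ => hκ m t)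
    (fun t _ => mul_nonneg (hκ m t) (sq_nonneg _)) (fun t _ => by ring)) ?_
  apply mul_le_of_le_one_left _ (ha m h)
  exact sum_nonneg fun t _ => mul_nonneg (hκ m t) (sq_nonneg _)

theorem low (hu : ∀ h, 0 ≤ u h) (hκ : ∀ m t, 0 ≤ κ m t)
    (hb : ∀ m h, m < h → u h = ∑ t ∈ Ioc m h, κ m t * u (h - t)) (m r : ℕ) :
    (∑ t ∈ Ioc m (m + r), κ m t) * ∑ s ∈ range (r + 1), u s ≤ ∑ h ∈ Ioc m (m + 2 * r), u h := by
  have h1 : ∑ h ∈ Ioc m (m + 2 * r), u h =
      ∑ t ∈ Ioc m (m + 2 * r), κ m t * ∑ s ∈ range (m + 2 * r - t + 1), u s := by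
    rw [sum_congr rfl fun h hh => hb m h (mem_Ioc.1 hh).1, swap]
    refine sum_congr rfl fun t ht => ?_
    rw [← mul_sum, shift u t (m + 2 * r) (mem_Ioc.1 ht).2]
  rw [h1, sum_mul]
  refine le_trans (sum_le_sum fun t ht => ?_) (sum_le_sum_of_subset_of_nonneg
    (Ioc_subset_Ioc_right (by omega)) fun t _ _ =>
      mul_nonneg (hκ m t) (sum_nonneg fun s _ => hu s))
  apply mul_le_mul_of_nonneg_left _ (hκ m t)
  have := mem_Ioc.1 ht
  exact sum_le_sum_of_subset_of_nonneg (range_subset_range.2 (by omega)) fun i _ _ => hu i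

theorem range_Ioc (f : ℕ → ℝ) (m : ℕ) :
    ∑ i ∈ range (m + 1), f i = f 0 + ∑ i ∈ Ioc 0 m, f i := by
  induction m with
  | zero => simp
  | succ m ih => rw [sum_range_succ, ih, ← sum_Ioc_consecutive f (Nat.zero_le m) (Nat.le_succ m)]
                 simp [Nat.Ioc_succ_singleton]
                 ring

theorem range_split (f : ℕ → ℝ) (m r : ℕ) :
    ∑ i ∈ range (m + r + 1), f i = ∑ i ∈ range (m + 1), f i + ∑ i ∈ Ioc m (m + r), f i := by
  rw [range_Ioc, range_Ioc, ← sum_Ioc_consecutive f (Nat.zero_le m) (Nat.le_add_right m r)]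
  ring

theorem subadd (hu : ∀ h, 0 ≤ u h) (hκ : ∀ m t, 0 ≤ κ m t)
    (ha : ∀ m T, ∑ t ∈ Ioc m T, κ m t ≤ 1)
    (hb : ∀ m h, m < h → u h = ∑ t ∈ Ioc m h, κ m t * u (h - t)) (m r : ℕ) :
    ∑ i ∈ range (m + r + 1), u i ≤ ∑ i ∈ range (m + 1), u i + ∑ i ∈ range (r + 1), u i := by
  rw [range_split]
  have h1 : ∑ i ∈ Ioc m (m + r), u i ≤ ∑ i ∈ range (r + 1), u i := by
    rw [sum_congr rfl fun h hh => hb m h (mem_Ioc.1 hh).1]
    refine le_trans (win hκ u hu m r) ?_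
    exact mul_le_of_le_one_left (sum_nonneg fun s _ => hu s) (ha m (m + r))
  linarith

theorem windows (f : ℕ → ℝ) (r K : ℕ) :
    ∑ i ∈ range K, ∑ h ∈ Ioc (i * r) (i * r + r), f h = ∑ h ∈ Ioc 0 (K * r), f h := by
  induction K with
  | zero => simp
  | succ K ih =>
    rw [sum_range_succ, ih, show (K + 1) * r = K * r + r by ring]
    exact sum_Ioc_consecutive f (Nat.zero_le _) (Nat.le_add_right _ _)

theorem windows' (f : ℕ → ℝ) (r K : ℕ) :
    ∑ i ∈ range K, ∑ h ∈ Ioc (i * r + r) (i * r + 2 * r), f h = ∑ h ∈ Ioc r ((K + 1) * r), f h := by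
  induction K with
  | zero => simp
  | succ K ih =>
    rw [sum_range_succ, ih, show (K + 1 + 1) * r = K * r + 2 * r by ring,
      show (K + 1) * r = K * r + r by ring]
    exact sum_Ioc_consecutive f (by nlinarith) (by omega)

theorem fourth (hu : ∀ h, 0 ≤ u h) (u0 : u 0 = 1) (hκ : ∀ m t, 0 ≤ κ m t)
    (ha : ∀ m T, ∑ t ∈ Ioc m T, κ m t ≤ 1)
    (hb : ∀ m h, m < h → u h = ∑ t ∈ Ioc m h, κ m t * u (h - t)) (r N : ℕ) (hr : 1 ≤ r)
    (hrN : r ≤ N) :
    (∑ i ∈ range (N + 1), u i ^ 2) * ∑ i ∈ range (r + 1), u i ≤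
      7 * (∑ i ∈ range (N + 1), u i) * ∑ i ∈ range (r + 1), u i ^ 2 := by
  set K := (N - 1) / r + 1 with hK
  have hK1 : N ≤ K * r := by
    have := Nat.div_add_mod (N - 1) r
    have h2 := Nat.mod_lt (N - 1) (show 0 < r by omega)
    rw [hK]
    have h3 : ((N - 1) / r + 1) * r = r * ((N - 1) / r) + r := by ring
    omega
  have hK2 : (K + 1) * r ≤ N + 2 * N := by
    have := Nat.div_add_mod (N - 1) r
    rw [hK]
    have h3 : ((N - 1) / r + 1 + 1) * r = r * ((N - 1) / r) + r + r := by ring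
    omega
  have hUr : 0 ≤ ∑ i ∈ range (r + 1), u i := sum_nonneg fun i _ => hu i
  have hVr1 : 1 ≤ ∑ i ∈ range (r + 1), u i ^ 2 := by
    rw [range_Ioc, u0]
    have : 0 ≤ ∑ i ∈ Ioc 0 r, u i ^ 2 := sum_nonneg fun i _ => sq_nonneg _
    linarith
  have hUN : ∑ i ∈ range (r + 1), u i ≤ ∑ i ∈ range (N + 1), u i :=
    sum_le_sum_of_subset_of_nonneg (range_subset_range.2 (by omega)) fun i _ _ => hu i
  -- squares
  have h1 : ∑ i ∈ range (N + 1), u i ^ 2 ≤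
      1 + (∑ i ∈ range K, ∑ t ∈ Ioc (i * r) (i * r + r), κ (i * r) t) *
        ∑ s ∈ range (r + 1), u s ^ 2 := by
    rw [range_Ioc, u0]
    have h2 : ∑ i ∈ Ioc 0 N, u i ^ 2 ≤ ∑ i ∈ Ioc 0 (K * r), u i ^ 2 :=
      sum_le_sum_of_subset_of_nonneg (Ioc_subset_Ioc_right hK1) fun i _ _ => sq_nonneg _
    rw [← windows] at h2
    have h3 : ∑ i ∈ range K, ∑ h ∈ Ioc (i * r) (i * r + r), u h ^ 2 ≤
        (∑ i ∈ range K, ∑ t ∈ Ioc (i * r) (i * r + r), κ (i * r) t) *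
        ∑ s ∈ range (r + 1), u s ^ 2 := by
      rw [sum_mul]
      exact sum_le_sum fun i _ => sumsq hu hκ ha hb (i * r) r
    linarith
  -- lower bound
  have h4 : (∑ i ∈ range K, ∑ t ∈ Ioc (i * r) (i * r + r), κ (i * r) t) *
      ∑ s ∈ range (r + 1), u s ≤ 6 * ∑ i ∈ range (N + 1), u i := by
    rw [sum_mul]
    refine le_trans (sum_le_sum fun i _ => low hu hκ hb (i * r) r) ?_
    have h5 : ∀ i, ∑ h ∈ Ioc (i * r) (i * r + 2 * r), u h =
        ∑ h ∈ Ioc (i * r) (i * r + r), u h + ∑ h ∈ Ioc (i * r + r) (i * r + 2 * r), u h :=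
      fun i => (sum_Ioc_consecutive u (by omega) (by omega)).symm
    simp_rw [h5]
    rw [sum_add_distrib, windows, windows']
    have h6 : ∑ h ∈ Ioc 0 (K * r), u h ≤ ∑ i ∈ range (N + 2 * N + 1), u i := by
      refine sum_le_sum_of_subset_of_nonneg (fun x hx => ?_) fun i _ _ => hu i
      have h7 := mem_Ioc.1 hx
      have h8 : K * r ≤ (K + 1) * r := Nat.mul_le_mul_right r (by omega)
      exact mem_range.2 (by omega)
    have h9 : ∑ h ∈ Ioc r ((K + 1) * r), u h ≤ ∑ i ∈ range (N + 2 * N + 1), u i := by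
      refine sum_le_sum_of_subset_of_nonneg (fun x hx => ?_) fun i _ _ => hu i
      have h7 := mem_Ioc.1 hx
      exact mem_range.2 (by omega)
    have h10 := subadd hu hκ ha hb N (2 * N)
    have h11 := subadd hu hκ ha hb N N
    rw [show N + N + 1 = 2 * N + 1 by ring] at h11
    linarith
  have h12 : (∑ i ∈ range (N + 1), u i ^ 2) * ∑ i ∈ range (r + 1), u i ≤
      (1 + (∑ i ∈ range K, ∑ t ∈ Ioc (i * r) (i * r + r), κ (i * r) t) *
        ∑ s ∈ range (r + 1), u s ^ 2) * ∑ i ∈ range (r + 1), u i :=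
    mul_le_mul_of_nonneg_right h1 hUr
  have h13 : ((∑ i ∈ range K, ∑ t ∈ Ioc (i * r) (i * r + r), κ (i * r) t) *
      ∑ s ∈ range (r + 1), u s) * ∑ s ∈ range (r + 1), u s ^ 2 ≤
      (6 * ∑ i ∈ range (N + 1), u i) * ∑ s ∈ range (r + 1), u s ^ 2 :=
    mul_le_mul_of_nonneg_right h4 (by linarith)
  have h14 : ∑ i ∈ range (r + 1), u i ≤
      (∑ i ∈ range (N + 1), u i) * ∑ s ∈ range (r + 1), u s ^ 2 := by
    have h15 : 0 ≤ ∑ i ∈ range (N + 1), u i := sum_nonneg fun i _ => hu i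
    calc ∑ i ∈ range (r + 1), u i ≤ ∑ i ∈ range (N + 1), u i := hUN
      _ ≤ (∑ i ∈ range (N + 1), u i) * ∑ s ∈ range (r + 1), u s ^ 2 :=
          le_mul_of_one_le_right h15 hVr1
  nlinarith [h12, h13, h14]

/-! ### application -/

section

variable {α : Type} [DecidableEq α] (S : Sys α)

/-- weight of the crossing lists of height `t` -/
def kp (m t : ℕ) : ℝ := ∑ C ∈ (S.CR m).filter (fun C => S.ht C = t), S.wt C

theorem kp_nonneg (m t : ℕ) : 0 ≤ kp S m t := sum_nonneg fun _ _ => S.wt_nonneg _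

theorem kp_sum (hC : StCross) (m T : ℕ) : ∑ t ∈ Ioc m T, kp S m t ≤ 1 := by
  refine le_trans ?_ (hC α S m).1
  have h1 : ∑ t ∈ Ioc m T, kp S m t =
      ∑ C ∈ (S.CR m).filter (fun C => S.ht C ∈ Ioc m T), S.wt C := by
    rw [← sum_fiberwise_of_maps_to (t := Ioc m T) (g := fun C => S.ht C)
      (fun C hC => (mem_filter.1 hC).2)]
    refine sum_congr rfl fun t ht => ?_
    rw [kp, filter_filter]
    refine sum_congr ?_ fun _ _ => rfl
    ext C
    simp only [mem_filter]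
    constructor
    · rintro ⟨h1, h2⟩; exact ⟨h1, by rw [h2]; exact ht, h2⟩
    · rintro ⟨h1, _, h2⟩; exact ⟨h1, h2⟩
  rw [h1]
  exact sum_le_sum_of_subset_of_nonneg (filter_subset _ _) fun _ _ _ => S.wt_nonneg _

theorem kp_conv (hC : StCross) (m h : ℕ) (hm : m < h) :
    S.u h = ∑ t ∈ Ioc m h, kp S m t * S.u (h - t) := by
  rw [(hC α S m).2.1 h hm]
  rw [← sum_fiberwise_of_maps_to (t := Ioc m h) (g := fun C => S.ht C)
    (fun C hC => by
      have h1 := mem_filter.1 hC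
      exact mem_Ioc.2 ⟨(S.mem_CR.1 h1.1).2.1, h1.2⟩)]
  refine sum_congr rfl fun t ht => ?_
  rw [kp, sum_mul, filter_filter]
  refine sum_congr ?_ fun C hC => ?_
  · ext C
    simp only [mem_filter]
    constructor
    · rintro ⟨h1, _, h2⟩; exact ⟨h1, h2⟩
    · rintro ⟨h1, h2⟩; exact ⟨h1, by rw [h2]; exact (mem_Ioc.1 ht).2, h2⟩
  · rw [(mem_filter.1 hC).2]

end

theorem scal (hC : StCross) : StScal := by
  intro α _ S
  have hu := S.u_nonneg
  have u0 := S.u_zero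
  have hκ := kp_nonneg S
  have ha := kp_sum S hC
  have hb := kp_conv S hC
  refine ⟨u_le hu u0 hκ ha hb, fun m r => ?_, fun m r => ?_, fun r N hr hrN => ?_⟩
  · exact subadd hu hκ ha hb m r
  · refine le_trans (sumsq hu hκ ha hb m r) ?_
    exact mul_le_of_le_one_left (sum_nonneg fun s _ => sq_nonneg _) (ha m (m + r))
  · exact fourth hu u0 hκ ha hb r N hr hrN

end Pool.Agent.Helper3.PT.Scal
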